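import Pool.Agent.H20.SL.Basic

/-!
# Module CT (MP_bff2e5_gt): uncountable finitely branching slim trees have no covering Lindelof family
of compact open sets
-/

set_option autoImplicit false

open Topology Ordinal

namespace Pool.Agent.H97.SL

open Pool.Agent.H20.SL

variable {T : Type} [PartialOrder T]

/-- limit ordinals -/
def Lim (δ : Ordinal.{0}) : Prop := 0 < δ ∧ ∀ a, a < δ → Order.succ a < δ

theorem limTy (h : IsTree T) {v : T} (hv : Lim (ht h v)) : LimTy v := by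
  constructor
  · obtain ⟨s, hs, hs0⟩ := exists_ht h (t := v) (o := 0) bot_le
    refine ⟨s, lt_of_le_of_ne hs ?_⟩
    rintro rfl
    exact hv.1.ne' hs0
  · intro s hs
    have h1 := hv.2 _ (ht_lt h hs)
    obtain ⟨s', hs', hh⟩ := exists_ht h h1.le
    refine ⟨s', lt_of_ht h hs.le hs' (by rw [hh]; exact Order.lt_succ _), lt_of_le_of_ne hs' ?_⟩
    rintro rfl
    exact h1.ne hh.symm

theorem all_heights (h : IsTree T) (hS : Slim T h) (hunc : ¬ Countable T) {β : Ordinal.{0}}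
    (hβ : β < ω₁) : ∃ t : T, ht h t = β := by
  by_contra hcon
  push Not at hcon
  apply hunc
  rw [← Set.countable_univ_iff]
  refine (below_countable h hS hβ).mono ?_
  intro t _
  by_contra ht'
  rw [Set.mem_ofPred_eq, not_le] at ht'
  obtain ⟨s, _, hs⟩ := exists_ht h ht'.le
  exact hcon s hs

/-- the local structure of a compact open set at the level `δ` above `g` -/
structure Loc (h : IsTree T) (c : T → Bool) (δ g : Ordinal.{0}) : Prop where
  lt : g < δ
  s1 : ∀ y, c y = true → g ≤ ht h y → ht h y ≤ δ → ∃ z, c z = true ∧ ht h z = δ ∧ y ≤ z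
  s2 : ∀ z y, c z = true → ht h z = δ → y ≤ z → g ≤ ht h y → c y = true
  s3 : ∀ z z' y, c z = true → c z' = true → ht h z = δ → ht h z' = δ → y ≤ z → y ≤ z' →
    g ≤ ht h y → z = z'
  s4 : {y | c y = true ∧ ht h y = g}.Finite

theorem pair (h : IsTree T) (hH : Haus T) {δ : Ordinal.{0}} (hδ : Lim δ) (z z' : T) :
    ∃ g, g < δ ∧ (ht h z = δ → ht h z' = δ → ∀ y, y ≤ z → y ≤ z' → g ≤ ht h y → z = z') := by
  by_cases hz : ht h z = δ ∧ ht h z' = δ ∧ z ≠ z'
  swap
  · refine ⟨0, hδ.1, ?_⟩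
    intro h1 h2 y _ _ _
    by_contra h3
    exact hz ⟨h1, h2, h3⟩
  obtain ⟨hz1, hz2, hne⟩ := hz
  have h1 : ¬ ∀ s, s < z ↔ s < z' := fun h2 => hne (hH z z' (limTy h (by rw [hz1]; exact hδ)) h2)
  push Not at h1
  obtain ⟨s, hs⟩ := h1
  have key : ∀ a b : T, ht h a = δ → ht h b = δ → s < a → ¬ s < b → ∀ y, y ≤ a → y ≤ b →
      ¬ ht h s ≤ ht h y := by
    intro a b ha hb hsa hsb y hya hyb hy
    have h3 := le_of_ht h hsa.le hya hy
    apply hsb
    refine lt_of_le_of_ne (h3.trans hyb) ?_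
    rintro rfl
    have := ht_lt h hsa
    rw [ha, hb] at this
    exact lt_irrefl _ this
  rcases hs with ⟨h2, h3⟩ | ⟨h2, h3⟩
  · refine ⟨ht h s, by rw [← hz1]; exact ht_lt h h2, ?_⟩
    intro _ _ y hy hy' hg
    exact absurd hg (key z z' hz1 hz2 h2 (by simpa using h3) y hy hy')
  · refine ⟨ht h s, by rw [← hz2]; exact ht_lt h h3, ?_⟩
    intro _ _ y hy hy' hg
    exact absurd hg (key z' z hz2 hz1 h3 (by simpa using h2) y hy' hy)

theorem single (h : IsTree T) {c : T → Bool} (hc : CO c) {δ : Ordinal.{0}} (hδ : Lim δ) (t : T) :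
    ∃ g, g < δ ∧ (∀ y, y ≤ t → ht h t < δ → ¬ g ≤ ht h y) ∧
      ∀ v y, v ≤ t → ht h v = δ → y ≤ t → g ≤ ht h y → ht h y ≤ δ → c y = c v := by
  rcases lt_or_ge (ht h t) δ with hlt | hge
  · refine ⟨Order.succ (ht h t), hδ.2 _ hlt, ?_, ?_⟩
    · intro y hy _ hg
      have := (Order.succ_le_iff.1 hg).trans_le (ht_le h hy)
      exact lt_irrefl _ this
    · intro v y hv hv' _ _ _
      have := ht_le h hv
      rw [hv'] at this
      exact absurd hlt (not_lt.2 this)
  · obtain ⟨v, hv, hv'⟩ := exists_ht h hge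
    obtain ⟨s, hs, hs'⟩ := hc.2 v (limTy h (by rw [hv']; exact hδ))
    refine ⟨Order.succ (ht h s), hδ.2 _ (by rw [← hv']; exact ht_lt h hs), ?_, ?_⟩
    · intro y _ hlt
      exact absurd hlt (not_lt.2 hge)
    · intro v' y hv1 hv2 hy hg hyδ
      have : v' = v := eq_of_ht h hv1 hv (hv2.trans hv'.symm)
      subst this
      refine hs' y (lt_of_ht h (hs.le.trans hv) hy (Order.succ_le_iff.1 hg)) ?_
      exact le_of_ht h hy hv (by rw [hv']; exact hyδ)

theorem loc (h : IsTree T) (hH : Haus T) {c : T → Bool} (hc : CO c) {δ : Ordinal.{0}}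
    (hδ : Lim δ) : ∃ g, Loc h c δ g := by
  classical
  obtain ⟨E, hE⟩ := hc.1
  choose g1 hg1 hg1a hg1b using single h hc hδ
  choose v hv using fun t : T => (exists_ht h (t := t) (o := min δ (ht h t)) (min_le_right _ _))
  choose g2 hg2 hg2a using pair h hH hδ
  let g : Ordinal.{0} := (E.sup g1) ⊔ ((E ×ˢ E).sup fun p => g2 (v p.1) (v p.2))
  have hgδ : g < δ := by
    refine max_lt ?_ ?_
    · rw [Finset.sup_lt_iff (by exact hδ.1)]
      exact fun t _ => hg1 t
    · rw [Finset.sup_lt_iff (by exact hδ.1)]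
      exact fun p _ => hg2 _ _
  have hg1' : ∀ t ∈ E, g1 t ≤ g := fun t ht => (Finset.le_sup (f := g1) ht).trans le_sup_left
  have hg2' : ∀ t ∈ E, ∀ t' ∈ E, g2 (v t) (v t') ≤ g := by
    intro t ht t' ht'
    have := Finset.le_sup (f := fun p : T × T => g2 (v p.1) (v p.2)) (b := (t, t'))
      (Finset.mem_product.2 ⟨ht, ht'⟩)
    exact this.trans le_sup_right
  have hvz : ∀ t z, z ≤ t → ht h z = δ → z = v t := by
    intro t z hz hzδ
    refine eq_of_ht h hz (hv t).1 ?_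
    rw [(hv t).2, hzδ, min_eq_left]
    rw [← hzδ]
    exact ht_le h hz
  refine ⟨g, hgδ, ?_, ?_, ?_, ?_⟩
  · intro y hy hgy hyδ
    obtain ⟨t, htE, hyt⟩ := hE y hy
    have hge : δ ≤ ht h t := by
      by_contra hlt
      exact hg1a t y hyt (not_le.1 hlt) ((hg1' t htE).trans hgy)
    have hvt : ht h (v t) = δ := by rw [(hv t).2, min_eq_left hge]
    have hcv := hg1b t (v t) y (hv t).1 hvt hyt ((hg1' t htE).trans hgy) hyδ
    refine ⟨v t, by rw [← hcv]; exact hy, hvt, ?_⟩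
    exact le_of_ht h hyt (hv t).1 (by rw [hvt]; exact hyδ)
  · intro z y hz hzδ hyz hgy
    obtain ⟨t, htE, hzt⟩ := hE z hz
    have hcv := hg1b t z y hzt hzδ (hyz.trans hzt) ((hg1' t htE).trans hgy)
      (by rw [← hzδ]; exact ht_le h hyz)
    rw [hcv]
    exact hz
  · intro z z' y hz hz' hzδ hz'δ hyz hyz' hgy
    obtain ⟨t, htE, hzt⟩ := hE z hz
    obtain ⟨t', htE', hzt'⟩ := hE z' hz'
    have e1 := hvz t z hzt hzδ
    have e2 := hvz t' z' hzt' hz'δ
    subst e1
    subst e2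
    exact hg2a _ _ hzδ hz'δ y hyz hyz' ((hg2' t htE t' htE').trans hgy)
  · have hsub : {y | c y = true ∧ ht h y = g} ⊆ ⋃ t ∈ E, {y | y ≤ t ∧ ht h y = g} := by
      rintro y ⟨hy, hyg⟩
      obtain ⟨t, htE, hyt⟩ := hE y hy
      exact Set.mem_biUnion htE ⟨hyt, hyg⟩
    refine Set.Finite.subset ?_ hsub
    refine Set.Finite.biUnion E.finite_toSet ?_
    intro t _
    apply Set.Subsingleton.finite
    rintro a ⟨ha, ha'⟩ b ⟨hb, hb'⟩
    exact eq_of_ht h ha hb (ha'.trans hb'.symm)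

/-- pressing down, after removing the finite sets -/
theorem press (gg : Ordinal.{0} → Ordinal.{0}) (hgg : ∀ δ, Lim δ → δ < ω₁ → gg δ < δ) :
    ¬ ∀ a, a < ω₁ → ∃ G, G < ω₁ ∧ ∀ δ, Lim δ → δ < ω₁ → gg δ ≤ a → δ ≤ G := by
  intro hcon
  have hcon' : ∀ a : Ordinal.{0}, ∃ G, a < ω₁ → G < ω₁ ∧ ∀ δ, Lim δ → δ < ω₁ → gg δ ≤ a → δ ≤ G := by
    intro a
    by_cases ha : a < ω₁
    · obtain ⟨G, hG⟩ := hcon a ha
      exact ⟨G, fun _ => hG⟩
    · exact ⟨0, fun h => absurd h ha⟩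
  choose G hG using hcon'
  let a : ℕ → Ordinal.{0} := fun n => Nat.rec 0 (fun _ x => Order.succ (max x (G x))) n
  have ha1 : ∀ n, a (n + 1) = Order.succ (max (a n) (G (a n))) := fun n => rfl
  have haw : ∀ n, a n < ω₁ := by
    intro n
    induction n with
    | zero =>
      show (0 : Ordinal.{0}) < ω₁
      exact Ordinal.omega_pos 1
    | succ n ih =>
      rw [ha1]
      exact succ_lt_w1 (max_lt ih (hG _ ih).1)
  have hlt : ∀ n, a n < a (n + 1) := by
    intro n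
    rw [ha1]
    exact Order.lt_succ_of_le (le_max_left _ _)
  have hδ : (⨆ n, a n) < ω₁ := Ordinal.iSup_lt_omega_one haw
  have hle : ∀ n, a n ≤ ⨆ n, a n := fun n => Ordinal.le_iSup a n
  have hlim : Lim (⨆ n, a n) := by
    constructor
    · exact lt_of_lt_of_le (lt_of_le_of_lt bot_le (hlt 0)) (hle 1)
    · intro b hb
      obtain ⟨n, hn⟩ := (Ordinal.lt_iSup_iff).1 hb
      exact lt_of_le_of_lt (Order.succ_le_of_lt hn) ((hlt n).trans_le (hle (n + 1)))
  have h1 := hgg _ hlim hδ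
  obtain ⟨n, hn⟩ := (Ordinal.lt_iSup_iff).1 h1
  have h2 := (hG (a n) (haw n)).2 _ hlim hδ hn.le
  have h3 : G (a n) < a (n + 1) := by
    rw [ha1]
    exact Order.lt_succ_of_le (le_max_right _ _)
  exact absurd (h2.trans_lt h3) (not_lt.2 (hle (n + 1)))

theorem ct : T_CT := by
  classical
  intro T _ h hH hS hunc hfin 𝒞 hL hCO hcov
  have hw : ∀ t : T, ht h t < ω₁ := ht_lt_omega_one h hS.1
  -- the data for every limit `δ < ω₁`
  have hdata : ∀ δ : Ordinal.{0}, ∃ (c : T → Bool) (g : Ordinal.{0}), Lim δ → δ < ω₁ →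
      c ∈ 𝒞 ∧ Loc h c δ g ∧ ∃ t, ht h t = δ ∧ c t = true := by
    intro δ
    by_cases hδ : Lim δ ∧ δ < ω₁
    · obtain ⟨t, hte⟩ := all_heights h hS hunc hδ.2
      obtain ⟨c, hc, hct⟩ := hcov t
      obtain ⟨g, hg⟩ := loc h hH (hCO c hc) hδ.1
      exact ⟨c, g, fun _ _ => ⟨hc, hg, t, hte, hct⟩⟩
    · exact ⟨fun _ => true, 0, fun h1 h2 => absurd ⟨h1, h2⟩ hδ⟩
  choose cc gg hcg using hdata
  let RR : Ordinal.{0} → Set T := fun δ => {y | cc δ y = true ∧ ht h y = gg δ}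
  -- uniformise
  obtain ⟨g, R, hunb⟩ : ∃ (g : Ordinal.{0}) (R : Set T), ∀ o, o < ω₁ →
      ∃ δ, o < δ ∧ Lim δ ∧ δ < ω₁ ∧ gg δ = g ∧ RR δ = R := by
    by_contra hcon
    push Not at hcon
    choose b hb hb' using hcon
    refine press gg (fun δ h1 h2 => (hcg δ h1 h2).2.1.lt) ?_
    intro a ha
    have hK : {t : T | ht h t ≤ a}.Countable := below_countable h hS ha
    have : Countable {t : T // ht h t ≤ a} := hK.to_subtype
    obtain ⟨G, hG, hG'⟩ := bdd_w1
      (fun k : {t : T // ht h t ≤ a} × Finset {t : T // ht h t ≤ a} =>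
        b (ht h k.1.1) (Subtype.val '' (k.2 : Set {t : T // ht h t ≤ a}))) (fun k => hb _ _)
    refine ⟨G, hG, ?_⟩
    intro δ hδ hδw hga
    obtain ⟨t, hte⟩ := all_heights h hS hunc ((hga.trans_lt ha))
    have hfinR : (RR δ).Finite := (hcg δ hδ hδw).2.1.s4
    have hsubR : ∀ y ∈ RR δ, ht h y ≤ a := fun y hy => by
      rw [hy.2]
      exact hga
    have hR : Subtype.val '' (((hfinR.toFinset.subtype (fun y => ht h y ≤ a)) :
        Finset {t : T // ht h t ≤ a}) : Set {t : T // ht h t ≤ a}) = RR δ := by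
      ext y
      constructor
      · rintro ⟨z, hz, rfl⟩
        simpa using hz
      · intro hy
        exact ⟨⟨y, hsubR y hy⟩, by simpa using hy, rfl⟩
    have h1 := hG' (⟨t, by rw [hte]; exact hga⟩, hfinR.toFinset.subtype (fun y => ht h y ≤ a))
    refine le_trans ?_ h1
    by_contra hlt
    rw [not_le] at hlt
    exact hb' _ _ δ hlt hδ hδw hte.symm hR.symm
  -- accumulate
  obtain ⟨c, hc𝒞, hacc⟩ : ∃ c ∈ 𝒞, ∀ F : Finset T, ∀ o, o < ω₁ →
      ∃ δ, o < δ ∧ Lim δ ∧ δ < ω₁ ∧ gg δ = g ∧ RR δ = R ∧ ∀ x ∈ F, cc δ x = c x := by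
    by_contra hcon
    push Not at hcon
    have hcon' : ∀ c : T → Bool, ∃ (F : Finset T) (o : Ordinal.{0}), o < ω₁ ∧ (c ∈ 𝒞 →
        ∀ δ, o < δ → Lim δ → δ < ω₁ → gg δ = g → RR δ = R → ∃ x ∈ F, cc δ x ≠ c x) := by
      intro c
      by_cases hc : c ∈ 𝒞
      · obtain ⟨F, o, ho, h1⟩ := hcon c hc
        exact ⟨F, o, ho, fun _ => h1⟩
      · exact ⟨∅, 0, Ordinal.omega_pos 1, fun h => absurd h hc⟩
    choose F o ho hF using hcon'
    have hnhds : ∀ c ∈ 𝒞, {d : T → Bool | ∀ x ∈ F c, d x = c x} ∈ 𝓝 c := by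
      intro c _
      have h1 : {d : T → Bool | ∀ x ∈ F c, d x = c x} = ⋂ x ∈ F c, {d : T → Bool | d x = c x} := by
        ext d
        simp
      rw [h1]
      refine (Filter.biInter_finset_mem _).2 fun x _ => ?_
      have h2 : IsOpen ((fun p : T → Bool => p x) ⁻¹' ({c x} : Set Bool)) :=
        IsOpen.preimage (continuous_apply x) (isOpen_discrete ({c x} : Set Bool))
      exact h2.mem_nhds rfl
    obtain ⟨t, htc, hts, hcovt⟩ := hL.elim_nhds_subcover _ hnhds
    have : Countable t := htc.to_subtype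
    obtain ⟨O, hO, hO'⟩ := bdd_w1 (fun k : t => o k.1) (fun k => ho _)
    obtain ⟨δ, h1, h2, h3, h4, h5⟩ := hunb O hO
    obtain ⟨d, hd, hd'⟩ := Set.mem_iUnion₂.1 (hcovt (hcg δ h2 h3).1)
    obtain ⟨x, hx, hxne⟩ := hF d (hts d hd) δ ((hO' ⟨d, hd⟩).trans_lt h1) h2 h3 h4 h5
    exact hxne (hd' x hx)
  -- the element `x0`
  obtain ⟨x0, hx0R⟩ : R.Nonempty := by
    obtain ⟨δ, _, h2, h3, h4, h5⟩ := hunb 0 (Ordinal.omega_pos 1)
    obtain ⟨_, hloc, t, hte, htc⟩ := hcg δ h2 h3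
    obtain ⟨y, hy, hyg⟩ := exists_ht h (t := t) (o := gg δ) (by rw [hte]; exact hloc.lt.le)
    rw [← h5]
    exact ⟨y, hloc.s2 t y htc hte hy hyg.ge, hyg⟩
  have hRδ : ∀ δ, RR δ = R → cc δ x0 = true ∧ ht h x0 = gg δ := by
    intro δ h5
    rw [← h5] at hx0R
    exact hx0R
  have hx0 : c x0 = true ∧ ht h x0 = g := by
    obtain ⟨δ, _, h2, h3, h4, h5, h6⟩ := hacc {x0} 0 (Ordinal.omega_pos 1)
    obtain ⟨h7, h8⟩ := hRδ δ h5
    exact ⟨by rw [← h6 x0 (by simp)]; exact h7, by rw [h8, h4]⟩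
  have hgw : g < ω₁ := by
    rw [← hx0.2]
    exact hw x0
  have chain : ∀ y y', c y = true → c y' = true → x0 ≤ y → x0 ≤ y' → ht h y ≤ ht h y' → y ≤ y' := by
    intro y y' hy hy' hxy hxy' hyy
    obtain ⟨δ, h1, h2, h3, h4, h5, h6⟩ := hacc {y, y'} (ht h y') (hw y')
    obtain ⟨_, hloc, _⟩ := hcg δ h2 h3
    have hgy : gg δ ≤ ht h y := by
      rw [h4, ← hx0.2]
      exact ht_le h hxy
    obtain ⟨z, hz, hzδ, hyz⟩ := hloc.s1 y (by rw [h6 y (by simp)]; exact hy) hgy (hyy.trans h1.le)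
    obtain ⟨z', hz', hz'δ, hyz'⟩ := hloc.s1 y' (by rw [h6 y' (by simp)]; exact hy')
      (hgy.trans hyy) h1.le
    have e := hloc.s3 z z' x0 hz hz' hzδ hz'δ (hxy.trans hyz) (hxy'.trans hyz')
      (by rw [h4, hx0.2])
    subst e
    exact le_of_ht h hyz hyz' hyy
  obtain ⟨E, hE⟩ := (hCO c hc𝒞).1
  have claim : ∀ β, g ≤ β → β < ω₁ → ∃ y, c y = true ∧ x0 ≤ y ∧ ht h y = β := by
    intro β
    induction β using WellFoundedLT.induction with
    | _ β ih =>
      intro hgβ hβ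
      rcases hgβ.eq_or_lt with rfl | hgβ
      · exact ⟨x0, hx0.1, le_rfl, hx0.2⟩
      by_cases hlim : Lim β
      · -- limit
        have ih' : ∀ b : Ordinal.{0}, ∃ y, g ≤ b → b < β → c y = true ∧ x0 ≤ y ∧ ht h y = b := by
          intro b
          by_cases hb : g ≤ b ∧ b < β
          · obtain ⟨y, hy⟩ := ih b hb.2 hb.1 (hb.2.trans hβ)
            exact ⟨y, fun _ _ => hy⟩
          · exact ⟨x0, fun h1 h2 => absurd ⟨h1, h2⟩ hb⟩
        choose yy hyy using ih'
        obtain ⟨t, htE, htcof⟩ : ∃ t ∈ E, ∀ b, g ≤ b → b < β → ∃ b', b ≤ b' ∧ b' < β ∧ yy b' ≤ t := by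
          by_contra hcon
          push Not at hcon
          have hcon' : ∀ t : T, ∃ b, g ≤ b ∧ b < β ∧ (t ∈ E → ∀ b', b ≤ b' → b' < β → ¬ yy b' ≤ t) := by
            intro t
            by_cases htE : t ∈ E
            · obtain ⟨b, h1, h2, h3⟩ := hcon t htE
              exact ⟨b, h1, h2, fun _ => h3⟩
            · exact ⟨g, le_rfl, hgβ, fun h => absurd h htE⟩
          choose bb hb1 hb2 hb3 using hcon'
          have hBlt : g ⊔ E.sup bb < β := by
            refine max_lt hgβ ?_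
            rw [Finset.sup_lt_iff (by exact hlim.1)]
            exact fun t _ => hb2 t
          obtain ⟨h1, h2, h3⟩ := hyy (g ⊔ E.sup bb) le_sup_left hBlt
          obtain ⟨t, htE, hyt⟩ := hE _ h1
          exact hb3 t htE _ ((Finset.le_sup (f := bb) htE).trans le_sup_right) hBlt hyt
        have hall : ∀ b, g ≤ b → b < β → yy b ≤ t := by
          intro b hb hbβ
          obtain ⟨b', h1, h2, h3⟩ := htcof b hb hbβ
          obtain ⟨k1, k2, k3⟩ := hyy b hb hbβ
          obtain ⟨l1, l2, l3⟩ := hyy b' (hb.trans h1) h2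
          exact (chain _ _ k1 l1 k2 l2 (by rw [k3, l3]; exact h1)).trans h3
        have hβt : β ≤ ht h t := by
          by_contra hlt
          rw [not_le] at hlt
          have h1 : g ⊔ Order.succ (ht h t) < β := max_lt hgβ (hlim.2 _ hlt)
          have h2 := ht_le h (hall _ le_sup_left h1)
          rw [(hyy _ le_sup_left h1).2.2] at h2
          have h3 : Order.succ (ht h t) ≤ ht h t := le_sup_right.trans h2
          exact absurd (Order.lt_succ (ht h t)) (not_lt.2 h3)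
        obtain ⟨v, hv, hvβ⟩ := exists_ht h hβt
        obtain ⟨s, hs, hs'⟩ := (hCO c hc𝒞).2 v (limTy h (by rw [hvβ]; exact hlim))
        have hsβ : ht h s < β := by
          rw [← hvβ]
          exact ht_lt h hs
        have hB : g ⊔ Order.succ (ht h s) < β := max_lt hgβ (hlim.2 _ hsβ)
        obtain ⟨k1, k2, k3⟩ := hyy _ le_sup_left hB
        have hyt := hall _ le_sup_left hB
        have hyv : yy (g ⊔ Order.succ (ht h s)) ≤ v :=
          le_of_ht h hyt hv (by rw [k3, hvβ]; exact hB.le)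
        have hsy : s < yy (g ⊔ Order.succ (ht h s)) := by
          refine lt_of_ht h (hs.le.trans hv) hyt ?_
          rw [k3]
          exact lt_of_lt_of_le (Order.lt_succ _) le_sup_right
        refine ⟨v, ?_, k2.trans hyv, hvβ⟩
        rw [← hs' _ hsy hyv]
        exact k1
      · -- successor
        obtain ⟨β', hβ'⟩ : ∃ β', β = Order.succ β' := by
          by_contra hcon
          push Not at hcon
          apply hlim
          refine ⟨lt_of_le_of_lt bot_le hgβ, fun a ha => ?_⟩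
          exact lt_of_le_of_ne (Order.succ_le_of_lt ha) (hcon a).symm
        subst hβ'
        have hgβ' : g ≤ β' := Order.lt_succ_iff.1 hgβ
        obtain ⟨y, hy, hxy, hyβ⟩ := ih β' (Order.lt_succ _) hgβ' ((Order.lt_succ _).trans hβ)
        obtain ⟨δ, h1, h2, h3, h4, h5, h6⟩ := hacc (insert y (hfin y).toFinset) _ hβ
        obtain ⟨_, hloc, _⟩ := hcg δ h2 h3
        have hgy : gg δ ≤ ht h y := by
          rw [h4, hyβ]
          exact hgβ'
        obtain ⟨z, hz, hzδ, hyz⟩ := hloc.s1 y (by rw [h6 y (by simp)]; exact hy) hgy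
          (by rw [hyβ]; exact ((Order.lt_succ _).trans h1).le)
        obtain ⟨y', hy'z, hy'β⟩ := exists_ht h (t := z) (o := Order.succ β') (by rw [hzδ]; exact h1.le)
        have hyy' : y < y' := lt_of_ht h hyz hy'z (by rw [hyβ, hy'β]; exact Order.lt_succ _)
        have hcov' : y ⋖ y' := by
          refine ⟨hyy', ?_⟩
          intro w hw1 hw2
          have l1 := ht_lt h hw1
          have l2 := ht_lt h hw2
          rw [hyβ] at l1
          rw [hy'β] at l2
          exact absurd l1 (not_lt.2 (Order.lt_succ_iff.1 l2))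
        have hcy' := hloc.s2 z y' hz hzδ hy'z (hgy.trans (ht_le h hyy'.le))
        refine ⟨y', ?_, hxy.trans hyy'.le, hy'β⟩
        rw [← h6 y' (by simp [hcov'])]
        exact hcy'
  have hsup : E.sup (fun t => ht h t) < ω₁ := by
    rw [Finset.sup_lt_iff (by exact Ordinal.omega_pos 1)]
    exact fun t _ => hw t
  obtain ⟨y, hy, _, hyβ⟩ := claim (g ⊔ Order.succ (E.sup fun t => ht h t)) le_sup_left
    (max_lt hgw (succ_lt_w1 hsup))
  obtain ⟨t, htE, hyt⟩ := hE y hy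
  have h1 := ht_le h hyt
  rw [hyβ] at h1
  have h2 := Finset.le_sup (f := fun t => ht h t) htE
  have h3 : Order.succ (E.sup fun t => ht h t) ≤ E.sup fun t => ht h t :=
    le_sup_right.trans (h1.trans h2)
  exact absurd (Order.lt_succ _) (not_lt.2 h3)

end Pool.Agent.H97.SL
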